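import Pool.Agent.P.MP_155d71_an.Proof

/-!
Q1 has a negative answer, already for a weakly compact convex subset of a Hilbert space (`ℓ²`).
`WeakSpace 𝕜 E` is `E` with its weak topology.
-/

open Pool.Agent.P.MP_155d71_an

namespace Pool.Agent.Results.MP_155d71_an.Counterexample

theorem result (𝕜 : Type) [RCLike 𝕜] :
    ∃ (S : Type) (_ : Semigroup S) (_ : TopologicalSpace S) (_ : T2Space S) (_ : ContinuousMul S)
      (E : Type) (_ : NormedAddCommGroup E) (_ : InnerProductSpace 𝕜 E) (_ : CompleteSpace E)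
      (C : Set (WeakSpace 𝕜 E)) (T : S → C → C) (c : C),
      HasMultInvMean S ∧ IsWeaklyCompactConvex C ∧ IsWeaklyContNonexpRep C T ∧
      HasRelWeaklyCompactOrbit C T c ∧ ¬ ∃ z : C, ∀ s, T s z = z := by
  have he := orthonormal_single 𝕜
  have hK := isCompact_posBall (𝕜 := 𝕜)
    fun n : ℕ => (lp.single 2 n (1 : 𝕜) : lp (fun _ : ℕ => 𝕜) 2)
  refine ⟨Sg 𝕜 _, inferInstance, inferInstance, inferInstance, inferInstance,
    lp (fun _ : ℕ => 𝕜) 2, inferInstance, inferInstance, inferInstance, posBall 𝕜 _,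
    fun s => s.1, ⟨_, e_mem he 0⟩, ⟨Sg.ela he⟩, ⟨hK.isClosed, hK, convex_posBall _⟩,
    ⟨fun _ _ _ => rfl, fun s => s.2.2.1, fun s => s.2.1, fun x => ?_⟩, ⟨?_⟩,
    Sg.no_fixed_point he⟩
  · exact ((toWeakSpaceCLM 𝕜 _).continuous.comp (Sg.continuous_emb_apply x)).subtype_mk _
  · refine hK.of_isClosed_subset isClosed_closure (closure_minimal ?_ hK.isClosed)
    rintro _ ⟨s, rfl⟩
    exact (s.1 _).2

end Pool.Agent.Results.MP_155d71_an.Counterexample
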