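import Pool.Agent.P.MP_155d71_an.SchNeg

/-!
The exact range of Q1: on a weakly closed convex set `D` the fixed point property of Q1 holds if and
only if weakly convergent sequences in `D` converge in norm.
`WeakSpace 𝕜 E` is `E` with its weak topology.
-/

open Pool.Agent.P.MP_155d71_an Pool.Agent.P.MP_155d71_an.Sch

namespace Pool.Agent.Results.MP_155d71_an.SchurIff

theorem result (𝕜 E : Type) [RCLike 𝕜] [NormedAddCommGroup E] [NormedSpace 𝕜 E] [CompleteSpace E]
    (D : Set (WeakSpace 𝕜 E)) (hD : IsClosed D) (hc : IsConvexSet D) :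
    List.TFAE [Schur D, ∀ C : Set (WeakSpace 𝕜 E), C ⊆ D → IsClosed C → HasFP C,
      HasAffineFP D] := by
  tfae_have 1 → 2 := fun h C hCD hC S _ _ _ _ hS T c hT hO => fix_of_schur h hCD hC hS T c hT hO
  tfae_have 2 → 3 := fun h S _ _ _ _ hS T c hT _ hO => h D subset_rfl hD S hS T c hT hO
  tfae_have 3 → 1 := fun h => by
    by_contra hS
    obtain ⟨K, ⟨c, hcD⟩, hK, hE, hn⟩ := exists_counter hD hc hS
    refine hn (h _ hE (fun s => s.1) ⟨c, hcD⟩
      ⟨fun _ _ _ => rfl, fun s => s.2.1, fun s => s.2.2.1, fun x => ?_⟩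
      (fun hb s => s.2.2.2.1 hb) ⟨?_⟩)
    · exact ((toWeakSpaceCLM 𝕜 E).continuous.comp (Sg.cont_emb x)).subtype_mk _
    · refine hK.of_isClosed_subset isClosed_closure (closure_minimal ?_ hK.isClosed)
      rintro _ ⟨s, rfl⟩
      exact s.2.2.2.2 _
  tfae_finish

end Pool.Agent.Results.MP_155d71_an.SchurIff
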